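import Mathlib

/-!
A set of pairs of vectors of the plane with four-dimensional Hausdorff measure zero has measure zero.
-/

open MeasureTheory

set_option autoImplicit false

namespace Pool.Agent.Helper33.LM

theorem vol_of_haus {S : Set ((ℝ × ℝ) × (ℝ × ℝ))} (h : μH[4] S = 0) : volume S = 0 := by
  have h4 : Module.finrank ℝ ((ℝ × ℝ) × (ℝ × ℝ)) = 4 := by
    rw [Module.finrank_prod, Module.finrank_prod, Module.finrank_self]
  have h1 : (μH[(Module.finrank ℝ ((ℝ × ℝ) × (ℝ × ℝ)) : ℝ)] : Measure ((ℝ × ℝ) × (ℝ × ℝ))) S = 0 := by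
    rw [h4]
    exact_mod_cast h
  have i2 : Measure.IsAddHaarMeasure (volume : Measure (ℝ × ℝ)) :=
    inferInstanceAs (Measure.IsAddHaarMeasure ((volume : Measure ℝ).prod (volume : Measure ℝ)))
  have i4 : Measure.IsAddHaarMeasure (volume : Measure ((ℝ × ℝ) × (ℝ × ℝ))) :=
    inferInstanceAs (Measure.IsAddHaarMeasure ((volume : Measure (ℝ × ℝ)).prod (volume : Measure (ℝ × ℝ))))
  exact (Measure.absolutelyContinuous_isAddHaarMeasure (volume : Measure ((ℝ × ℝ) × (ℝ × ℝ)))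
    (μH[(Module.finrank ℝ ((ℝ × ℝ) × (ℝ × ℝ)) : ℝ)] : Measure ((ℝ × ℝ) × (ℝ × ℝ)))) h1

end Pool.Agent.Helper33.LM
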