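import Pool.Agent.Helper75.LM.Defs

/-!
# Project LM (MP_fb29e9_nt): almost every frame, from a moment theorem with an arbitrary majorant (as TW/B1)
-/

open MeasureTheory Real Set Filter Topology Metric
open scoped ENNReal NNReal

set_option autoImplicit false

namespace Pool.Agent.Helper75.LM

open Pool.Agent.Helper22.AE
open Pool.Agent.Helper92.GC (sqa)
open Pool.Agent.Helper75.TW (Mm MomF bc_gen)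
open Pool.Agent.Helper92.LA (JJ JJ_cont JJ_nonneg fk_cont fdet_cont UU UU_compact UU_pos UU_exh)
open Pool.Agent.Helper22.LP (Fr fv fk fdet nr tr hom LS nr_eq)

theorem ae_oneF {J : Fr → (ℝ × ℝ → ℝ) → ℝ → ℕ → ℝ} (hm : Mm J) {F : ℝ → ℝ → ℝ} (hF : ∀ X N : ℝ, 1 ≤ X → 1 ≤ N → 0 < F X N) {μ₁ μ₂ : ℝ} {P : (ℝ × ℝ → ℝ) → Prop}
    (hmom : MomF J F P μ₁ μ₂) {h : ℝ → ℝ × ℝ → ℝ}
    (hc : Continuous fun q : ℝ × (ℝ × ℝ) => h q.1 q.2) {α₀ : ℝ} (hP : ∀ α ∈ Icc (-α₀) α₀, P (h α)) {κ : ℕ → ℕ → ℝ → ℝ}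
    (hκ : ∀ p n, Continuous (κ p n)) (hκ0 : ∀ p n α, 0 ≤ κ p n α) {K : ℝ} (hκ1 : ∀ p n, ∫ α in Icc (-α₀) α₀, κ p n α ≤ K)
    {ε : ℝ} (hε : 0 < ε) (m : ℕ) :
    ∀ᵐ f ∂((volume : Measure Fr).restrict (UU m)), ∃ C : ℝ, 0 ≤ C ∧ ∀ p n : ℕ, n ≤ p → ((2 : ℝ) ^ p) ^ μ₁ ≤ (2 : ℝ) ^ n →
      (2 : ℝ) ^ n ≤ ((2 : ℝ) ^ p) ^ μ₂ →
      ∫ α in Icc (-α₀) α₀, κ p n α * J f (h α) ((2 : ℝ) ^ p) (2 ^ n) ≤ C * (((2 : ℝ) ^ p) ^ ε * F ((2 : ℝ) ^ p) (2 ^ n)) := by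
  classical
  obtain ⟨C0, hC0⟩ := hmom (ε / 2) (by linarith) (UU m) (UU_compact m) (fun f hf => UU_pos hf)
  have hX0 : ∀ p : ℕ, (0 : ℝ) < 2 ^ p := fun p => by positivity
  have hX1 : ∀ p : ℕ, (1 : ℝ) ≤ 2 ^ p := fun p => one_le_pow₀ (by norm_num)
  have hMB := fun p n : ℕ => hF _ _ (hX1 p) (hX1 n)
  obtain ⟨Q, hQ⟩ : ∃ Q : ℕ → ℕ → Prop, Q = fun p n => ((2 : ℝ) ^ p) ^ μ₁ ≤ (2 : ℝ) ^ n ∧ (2 : ℝ) ^ n ≤ ((2 : ℝ) ^ p) ^ μ₂ := ⟨_, rfl⟩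
  obtain ⟨J', hJ⟩ : ∃ J' : ℕ → ℕ → Fr → ℝ → ℝ, ∀ p n f α, J' p n f α = if Q p n then J f (h α) ((2 : ℝ) ^ p) (2 ^ n) else 0 := ⟨_, fun _ _ _ _ => rfl⟩
  obtain ⟨D, hD⟩ : ∃ D : ℕ → ℕ → ℝ, ∀ p n, D p n = ((2 : ℝ) ^ p) ^ ε * F ((2 : ℝ) ^ p) (2 ^ n) := ⟨_, fun _ _ => rfl⟩
  obtain ⟨r, hr⟩ : ∃ r : ℝ, r = (2 : ℝ) ^ (-(ε / 2)) := ⟨_, rfl⟩
  have hJc : ∀ p n, Continuous fun q : Fr × ℝ => J' p n q.1 q.2 := by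
    intro p n
    simp only [hJ]
    by_cases hq : Q p n
    · simp only [if_pos hq]
      exact hm.cont h hc _ _
    · simp only [if_neg hq]
      exact continuous_const
  have hJ0 : ∀ p n f α, 0 ≤ J' p n f α := by
    intro p n f α
    rw [hJ]
    split_ifs
    · exact hm.nonneg _ _ _ _
    · exact le_rfl
  have hD0 : ∀ p n, 0 < D p n := by
    intro p n
    rw [hD]
    exact mul_pos (rpow_pos_of_pos (hX0 p) _) (hMB p n)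
  have hr0 : 0 ≤ r := by
    rw [hr]
    positivity
  have hr1 : r < 1 := by
    rw [hr]
    exact rpow_lt_one_of_one_lt_of_neg (by norm_num) (by linarith)
  have hb : ∀ p n, n ≤ p → ∀ α ∈ Icc (-α₀) α₀, ∫ f in UU m, J' p n f α ≤ max C0 0 * (r ^ p * D p n) := by
    intro p n hn α hα
    have hpos : 0 ≤ max C0 0 * (r ^ p * D p n) := mul_nonneg (le_max_right _ _) (mul_nonneg (pow_nonneg hr0 _) (hD0 p n).le)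
    by_cases hq : Q p n
    · simp only [hJ, if_pos hq]
      rw [hQ] at hq
      have h3 := hC0 (h α) (hP α hα) ((2 : ℝ) ^ p) (hX1 p) n hq.1 hq.2
      refine h3.trans ?_
      have h5 : ((2 : ℝ) ^ p) ^ (ε / 2) = r ^ p * ((2 : ℝ) ^ p) ^ ε := by
        rw [hr, ← rpow_natCast ((2 : ℝ) ^ (-(ε / 2))) p, ← rpow_mul (by norm_num), ← rpow_natCast 2 p, ← rpow_mul (by norm_num),
          ← rpow_mul (by norm_num), ← rpow_add (by norm_num)]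
        congr 1
        ring
      rw [hD, ← mul_assoc (r ^ p), ← h5]
      refine mul_le_mul_of_nonneg_right (le_max_left _ _) ?_
      exact mul_nonneg (rpow_nonneg (hX0 p).le _) (hMB p n).le
    · simp only [hJ, if_neg hq, integral_zero]
      exact hpos
  have h7 := bc_gen (UU_compact m) hJc hJ0 hκ hκ0 hκ1 hD0 (le_max_right C0 0) hr0 hr1 hb
  filter_upwards [h7] with f hf
  obtain ⟨C, hC, h8⟩ := hf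
  refine ⟨C, hC, fun p n hn hq1 hq2 => ?_⟩
  have h9 := h8 p n hn
  have hq : Q p n := by
    rw [hQ]
    exact ⟨hq1, hq2⟩
  simp only [hJ, hD, if_pos hq] at h9
  exact h9

/-- almost every frame -/
theorem ae_JF {J : Fr → (ℝ × ℝ → ℝ) → ℝ → ℕ → ℝ} (hm : Mm J) {F : ℝ → ℝ → ℝ} (hF : ∀ X N : ℝ, 1 ≤ X → 1 ≤ N → 0 < F X N) {μ₁ μ₂ : ℝ} {P : (ℝ × ℝ → ℝ) → Prop}
    (hmom : MomF J F P μ₁ μ₂) {h : ℝ → ℝ × ℝ → ℝ}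
    (hc : Continuous fun q : ℝ × (ℝ × ℝ) => h q.1 q.2) {α₀ : ℝ} (hP : ∀ α ∈ Icc (-α₀) α₀, P (h α)) {κ : ℕ → ℕ → ℝ → ℝ}
    (hκ : ∀ p n, Continuous (κ p n)) (hκ0 : ∀ p n α, 0 ≤ κ p n α) {K : ℝ} (hκ1 : ∀ p n, ∫ α in Icc (-α₀) α₀, κ p n α ≤ K) :
    ∀ᵐ f : Fr, 0 < fdet f → ∀ ε : ℝ, 0 < ε → ∃ C : ℝ, 0 ≤ C ∧ ∀ p n : ℕ, n ≤ p → ((2 : ℝ) ^ p) ^ μ₁ ≤ (2 : ℝ) ^ n →
      (2 : ℝ) ^ n ≤ ((2 : ℝ) ^ p) ^ μ₂ →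
      ∫ α in Icc (-α₀) α₀, κ p n α * J f (h α) ((2 : ℝ) ^ p) (2 ^ n) ≤ C * (((2 : ℝ) ^ p) ^ ε * F ((2 : ℝ) ^ p) (2 ^ n)) := by
  have h1 : ∀ᵐ f : Fr, ∀ (j m : ℕ), f ∈ UU m → ∃ C : ℝ, 0 ≤ C ∧ ∀ p n : ℕ, n ≤ p → ((2 : ℝ) ^ p) ^ μ₁ ≤ (2 : ℝ) ^ n →
      (2 : ℝ) ^ n ≤ ((2 : ℝ) ^ p) ^ μ₂ →
      ∫ α in Icc (-α₀) α₀, κ p n α * J f (h α) ((2 : ℝ) ^ p) (2 ^ n) ≤
        C * (((2 : ℝ) ^ p) ^ (1 / ((j : ℝ) + 1)) * F ((2 : ℝ) ^ p) (2 ^ n)) := by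
    rw [ae_all_iff]
    intro j
    rw [ae_all_iff]
    intro m
    have h2 := ae_oneF hm hF hmom hc hP hκ hκ0 hκ1 (ε := 1 / ((j : ℝ) + 1)) (by positivity) m
    exact (ae_restrict_iff' (UU_compact m).measurableSet).1 h2
  filter_upwards [h1] with f hf hdet ε hε
  obtain ⟨m, hm'⟩ := UU_exh hdet
  obtain ⟨j, hj⟩ := exists_nat_one_div_lt hε
  obtain ⟨C, hC, h2⟩ := hf j m hm'
  refine ⟨C, hC, fun p n hn hq1 hq2 => (h2 p n hn hq1 hq2).trans ?_⟩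
  have hX1 : (1 : ℝ) ≤ 2 ^ p := one_le_pow₀ (by norm_num)
  refine mul_le_mul_of_nonneg_left (mul_le_mul_of_nonneg_right ?_ (hF _ _ hX1 (one_le_pow₀ (by norm_num))).le) hC
  exact rpow_le_rpow_of_exponent_le hX1 hj.le

end Pool.Agent.Helper75.LM
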