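import Pool.Agent.Helper75.LM.Defs

/-!
# From frames to lattices (MP_fb29e9_nt, moments of the supremum over the centres)
-/

open MeasureTheory Real Set Filter Topology Metric
open scoped ENNReal NNReal

set_option autoImplicit false

namespace Pool.Agent.Helper33.LM

open Pool.Agent.Helper22.AE
open Pool.Agent.Helper22.AC (cntc)
open Pool.Agent.Helper92.LA (dl fdet_dl dl_dl lcnt lcnt_eq lcnt_swap)
open Pool.Agent.Helper22.LP (Fr fdet Hf area_lin)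
open Pool.Agent.Helper22.OV (shf)

theorem err_dl {H : ℝ → ℝ} (hp : Function.Periodic H (2 * π)) {ab : Fr} (h : fdet ab ≠ 0) (c : ℝ × ℝ) (R : ℝ) :
    |lcnt ab H c R - area H * R ^ 2 / abs (fdet ab)| =
      |cntc (Hf H (dl ab)) ((dl ab).1.1 * c.1 + (dl ab).1.2 * c.2, (dl ab).2.1 * c.1 + (dl ab).2.2 * c.2) R -
        area (Hf H (dl ab)) * R ^ 2| := by
  have hdl : fdet (dl ab) ≠ 0 := by
    rw [fdet_dl h]
    positivity
  rw [← lcnt_eq hp h, area_lin hp hdl, fdet_dl h, abs_div, abs_one]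
  congr 2
  ring

/-- the supremum over the centres, frame and lattice -/
theorem sup_dl {H : ℝ → ℝ} (hp : Function.Periodic H (2 * π)) {ab : Fr} (h : fdet ab ≠ 0) (F : ℝ → ℝ≥0∞) (R : ℝ) :
    ⨆ c : ℝ × ℝ, F |lcnt ab H c R - area H * R ^ 2 / abs (fdet ab)| ≤
      ⨆ c : ℝ × ℝ, F |cntc (Hf H (dl ab)) c R - area (Hf H (dl ab)) * R ^ 2| := by
  refine iSup_le fun c => ?_
  rw [err_dl hp h]
  exact le_iSup (fun c : ℝ × ℝ => F |cntc (Hf H (dl ab)) c R - area (Hf H (dl ab)) * R ^ 2|) _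

theorem sup_swap {H : ℝ → ℝ} {ab : Fr} (F : ℝ → ℝ≥0∞) (R : ℝ) :
    ⨆ c : ℝ × ℝ, F |lcnt ab H c R - area H * R ^ 2 / abs (fdet ab)| =
      ⨆ c : ℝ × ℝ, F |lcnt (ab.2, ab.1) H c R - area H * R ^ 2 / abs (fdet (ab.2, ab.1))| := by
  have e : fdet (ab.2, ab.1) = -fdet ab := by
    unfold fdet
    simp only
    ring
  rw [e, abs_neg]
  simp only [lcnt_swap]

theorem sup_shf {H : ℝ → ℝ} {ab : Fr} (v : ℝ × ℝ) (F : ℝ → ℝ≥0∞) (R : ℝ) :
    ⨆ c : ℝ × ℝ, F |lcnt ab H c R - area H * R ^ 2 / abs (fdet ab)| ≤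
      ⨆ c : ℝ × ℝ, F |lcnt ab (shf H v) c R - area (shf H v) * R ^ 2 / abs (fdet ab)| := by
  refine iSup_le fun c => ?_
  have h2 : lcnt ab (shf H v) (c.1 - R * v.1, c.2 - R * v.2) R = lcnt ab H c R := by
    unfold lcnt
    congr 1
    refine Nat.card_congr (Equiv.subtypeEquivRight fun k => ?_)
    refine forall_congr' fun t => ?_
    unfold shf
    simp only
    constructor
    · intro h
      linarith
    · intro h
      linarith
  rw [Pool.Agent.Helper22.OV.area_shf, ← h2]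
  exact le_iSup (fun c : ℝ × ℝ => F |lcnt ab (shf H v) c R - area H * R ^ 2 / abs (fdet ab)|) _

end Pool.Agent.Helper33.LM

namespace Pool.Agent.Helper75.LM

open Pool.Agent.Helper22.AE
open Pool.Agent.Helper22.AC (cntc)
open Pool.Agent.Helper92.LA (dl fdet_dl dl_dl lcnt lcnt_eq lcnt_swap ae_dual ae_swap ae_det)
open Pool.Agent.Helper22.LP (Fr fdet Hf area_lin)
open Pool.Agent.Helper22.OV (shf)

theorem LMo_of_FM {H : ℝ → ℝ} (hp : Function.Periodic H (2 * π)) {P : ℕ} {θ : ℝ} {ab : Fr} (h : fdet ab ≠ 0) (hb : FM H P θ (dl ab)) : LMo H P θ ab := by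
  intro ε hε
  obtain ⟨C, hC⟩ := hb ε hε
  exact ⟨C, fun X hX => (lintegral_mono fun R => Pool.Agent.Helper33.LM.sup_dl hp h (fun t => ENNReal.ofReal (t ^ P)) R).trans (hC X hX)⟩

theorem LMo_swap {H : ℝ → ℝ} {P : ℕ} {θ : ℝ} {ab : Fr} (h : LMo H P θ (ab.2, ab.1)) : LMo H P θ ab := by
  intro ε hε
  obtain ⟨C, hC⟩ := h ε hε
  exact ⟨C, fun X hX => (lintegral_mono fun R => (Pool.Agent.Helper33.LM.sup_swap (fun t => ENNReal.ofReal (t ^ P)) R).le).trans (hC X hX)⟩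

theorem LMo_shf {H : ℝ → ℝ} {P : ℕ} {θ : ℝ} {ab : Fr} (v : ℝ × ℝ) (h : LMo (shf H v) P θ ab) : LMo H P θ ab := by
  intro ε hε
  obtain ⟨C, hC⟩ := h ε hε
  exact ⟨C, fun X hX => (lintegral_mono fun R => Pool.Agent.Helper33.LM.sup_shf v (fun t => ENNReal.ofReal (t ^ P)) R).trans (hC X hX)⟩

theorem lattM_ae {H : ℝ → ℝ} (hp : Function.Periodic H (2 * π)) {P : ℕ} {θ : ℝ} (h : ∀ᵐ f : Fr, 0 < fdet f → FM H P θ f) :
    ∀ᵐ ab : Fr, fdet ab ≠ 0 ∧ LMo H P θ ab := by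
  have h1 := ae_dual h
  have h2 : ∀ᵐ ab : Fr, 0 < fdet ab → LMo H P θ ab := by
    filter_upwards [h1] with ab h hd
    exact LMo_of_FM hp hd.ne' (h hd)
  have h3 := ae_swap h2
  filter_upwards [h2, h3, ae_det] with ab h4 h5 h6
  refine ⟨h6, ?_⟩
  rcases lt_or_gt_of_ne h6 with h7 | h7
  · have e : fdet (ab.2, ab.1) = -fdet ab := by
      unfold fdet
      simp only
      ring
    exact LMo_swap (h5 (by rw [e]; linarith))
  · exact h4 h7

theorem mean_of_LB {H : ℝ → ℝ} {θ : ℝ} (hθ : 0 ≤ θ) {ab : Fr} (h1 : Pool.Agent.Helper75.GD.LB H θ ab) {p : ℝ} (hp : 0 < p) {ε : ℝ} (hε : 0 < ε) :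
    ∃ C : ℝ, ∀ X : ℝ, 1 ≤ X → ∫⁻ R in Icc X (2 * X), ⨆ c : ℝ × ℝ, ENNReal.ofReal (|lcnt ab H c R - area H * R ^ 2 / abs (fdet ab)| ^ p) ≤
      ENNReal.ofReal (C * X ^ (1 + p * (θ + ε))) := by
  obtain ⟨C, hC⟩ := h1 ε hε
  refine ⟨(|C| * 2 ^ (θ + ε)) ^ p, fun X hX => ?_⟩
  have hX0 : 0 < X := by linarith
  have hpt : ∀ R ∈ Icc X (2 * X), ⨆ c : ℝ × ℝ, ENNReal.ofReal (|lcnt ab H c R - area H * R ^ 2 / abs (fdet ab)| ^ p) ≤
      ENNReal.ofReal ((|C| * 2 ^ (θ + ε)) ^ p * X ^ (p * (θ + ε))) := by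
    intro R hR
    refine iSup_le fun c => ENNReal.ofReal_le_ofReal ?_
    have h2 := hC R (by linarith [hR.1]) c
    have hR0 : 0 < R := by linarith [hR.1]
    have h3 : R ^ (θ + ε) ≤ 2 ^ (θ + ε) * X ^ (θ + ε) := by
      rw [← Real.mul_rpow (by norm_num) hX0.le]
      exact Real.rpow_le_rpow hR0.le hR.2 (by linarith)
    have h4 : |lcnt ab H c R - area H * R ^ 2 / abs (fdet ab)| ≤ |C| * 2 ^ (θ + ε) * X ^ (θ + ε) := by
      refine h2.trans ?_
      rw [mul_assoc]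
      exact mul_le_mul (le_abs_self C) h3 (by positivity) (abs_nonneg _)
    refine (Real.rpow_le_rpow (abs_nonneg _) h4 hp.le).trans (le_of_eq ?_)
    rw [Real.mul_rpow (by positivity) (by positivity), ← Real.rpow_mul hX0.le]
    ring_nf
  refine (setLIntegral_mono' measurableSet_Icc hpt).trans ?_
  rw [setLIntegral_const, Real.volume_Icc, ← ENNReal.ofReal_mul (by positivity)]
  refine ENNReal.ofReal_le_ofReal (le_of_eq ?_)
  rw [Real.rpow_add hX0, Real.rpow_one]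
  ring

theorem haus_big {d : ℝ} (hd : 4 < d) (S : Set ((ℝ × ℝ) × (ℝ × ℝ))) : μH[d] S = 0 := by
  have h4 : dimH S ≤ 4 := by
    refine (dimH_mono (subset_univ S)).trans (le_of_eq ?_)
    rw [Real.dimH_univ_eq_finrank, Module.finrank_prod, Module.finrank_prod, Module.finrank_self]
    norm_num
  have h5 : ((d.toNNReal : ℝ≥0) : ℝ) = d := Real.coe_toNNReal _ (by linarith)
  rw [← h5]
  refine hausdorffMeasure_of_dimH_lt (lt_of_le_of_lt h4 ?_)
  have h6 : (4 : ℝ≥0) < d.toNNReal := by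
    rw [← NNReal.coe_lt_coe, h5]
    exact_mod_cast hd
  exact_mod_cast h6

end Pool.Agent.Helper75.LM
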